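import Mathlib

set_option autoImplicit false

/-!
# Transitivity of p-conjugacy in all variants does not imply transitivity in the semigroup

The counterexample has eight elements `0, u, v, x, y, a, b, c`; the only nonzero products are
`u v = x y = b`, `v u = a`, `y x = c`, and all products of three elements are `0`.  So every variant
has zero multiplication, and there `∼ₚ` is equality.
-/

namespace Pool.Agent.Results.MP_9df05e_al.ThreeNilpotent

/-- Primary conjugacy (`p`-conjugacy) on a semigroup `T`: `a ∼ₚ b` if `a = u v` and `b = v u` for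
some `u, v ∈ T¹`, where `T¹` is `T` with an identity element adjoined (if `T` already has an
identity, using `T¹ = T` instead gives the same relation, see `pconj_iff`). -/
def PConj {T : Type*} [Semigroup T] (a b : T) : Prop :=
  ∃ u v : WithOne T, (a : WithOne T) = u * v ∧ (b : WithOne T) = v * u

/-- `a ∼ₚ b` if and only if `a = b`, or `a = u v` and `b = v u` with `u, v ∈ T`. -/
lemma pconj_iff {T : Type*} [Semigroup T] (a b : T) :
    PConj a b ↔ a = b ∨ ∃ u v : T, a = u * v ∧ b = v * u := by
  constructor
  · rintro ⟨u, v, h1, h2⟩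
    induction u using WithOne.recOneCoe with
    | one => left; rw [one_mul] at h1; rw [mul_one] at h2; exact WithOne.coe_inj.1 (h1.trans h2.symm)
    | coe u =>
      induction v using WithOne.recOneCoe with
      | one => left; rw [mul_one] at h1; rw [one_mul] at h2; exact WithOne.coe_inj.1 (h1.trans h2.symm)
      | coe v =>
        right
        refine ⟨u, v, ?_, ?_⟩
        · exact_mod_cast h1
        · exact_mod_cast h2
  · rintro (rfl | ⟨u, v, h1, h2⟩)
    · exact ⟨1, a, by simp, by simp⟩
    · exact ⟨u, v, by rw [h1]; rfl, by rw [h2]; rfl⟩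

/-- The variant of the semigroup `S` at `a`: the set `S` with the product `x ∘ y = x a y`. -/
def Variant (S : Type*) [Semigroup S] (_a : S) : Type _ := S

instance (S : Type*) [Semigroup S] (a : S) : Semigroup (Variant S a) where
  mul := fun x y : S => x * a * y
  mul_assoc := by
    intro (x : S) (y : S) (z : S)
    change (x * a * y) * a * z = x * a * (y * a * z)
    simp only [mul_assoc]

/-- The multiplication of the eight-element semigroup on `{0, …, 7}` (`0` is the zero,
`1, …, 7` are `u, v, x, y, a, b, c`). -/
def mulE (p q : Fin 8) : Fin 8 :=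
  if p = 1 ∧ q = 2 then 6 else if p = 3 ∧ q = 4 then 6 else if p = 2 ∧ q = 1 then 5
  else if p = 4 ∧ q = 3 then 7 else 0

/-- The eight-element semigroup. -/
def E : Type := Fin 8

instance instE : Semigroup E where
  mul := mulE
  mul_assoc := by
    change ∀ p q r : Fin 8, mulE (mulE p q) r = mulE p (mulE q r)
    decide

/-- There is a semigroup `S` such that `∼ₚ` is transitive in every variant `(S, ∘ₐ)`, `a ∈ S`, but
`∼ₚ` is not transitive in `S`. -/
theorem result : ∃ (S : Type) (_ : Semigroup S),
    (∀ a : S, ∀ p q r : Variant S a, PConj p q → PConj q r → PConj p r) ∧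
    ¬ ∀ p q r : S, PConj p q → PConj q r → PConj p r := by
  refine ⟨E, instE, ?_, ?_⟩
  · intro a p q r h1 h2
    have key : ∀ s t : Variant E a, PConj s t → s = t := by
      intro s t hst
      rw [pconj_iff] at hst
      rcases hst with h | ⟨g, h, h3, h4⟩
      · exact h
      · have h0 : ∀ s a t : Fin 8, mulE (mulE s a) t = 0 := by decide
        have e1 : s = (0 : Fin 8) := h3.trans (h0 g a h)
        have e2 : t = (0 : Fin 8) := h4.trans (h0 h a g)
        exact e1.trans e2.symm
    rw [key p q h1]
    exact h2
  · intro h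
    have h1 : PConj (T := E) (5 : Fin 8) (6 : Fin 8) :=
      (pconj_iff _ _).2 (Or.inr ⟨(2 : Fin 8), (1 : Fin 8), rfl, rfl⟩)
    have h2 : PConj (T := E) (6 : Fin 8) (7 : Fin 8) :=
      (pconj_iff _ _).2 (Or.inr ⟨(3 : Fin 8), (4 : Fin 8), rfl, rfl⟩)
    have h3 := h _ _ _ h1 h2
    rcases (pconj_iff (T := E) (5 : Fin 8) (7 : Fin 8)).1 h3 with h3 | ⟨g, k, h3, h4⟩
    · have : ¬ ((5 : Fin 8) = 7) := by decide
      exact this h3
    · have h5 : ∀ g k : Fin 8, (5 : Fin 8) = mulE g k → (7 : Fin 8) = mulE k g → False := by decide
      exact h5 g k h3 h4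

end Pool.Agent.Results.MP_9df05e_al.ThreeNilpotent
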